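import Mathlib

/-!
# Graceful labelings of stacked books: the triples for the first three layers
-/

set_option autoImplicit false

namespace Pool.Agent.Q169.GR

/-- `u i`, `u i + w i`, `u i - x i` are `3k` different numbers among `K+2, 2K+4, ..., 8K+5`, and the differences `w i` are
`1, ..., 2K+1`, the differences `x i` are `1, ..., 2K+2` without `K+1`. -/
structure Trip (K : ℤ) (u w x : ℤ → ℤ) : Prop where
  wr : ∀ i, 0 ≤ i → i ≤ 2 * K → 1 ≤ w i ∧ w i ≤ 2 * K + 1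
  xr : ∀ i, 0 ≤ i → i ≤ 2 * K → 1 ≤ x i ∧ x i ≤ 2 * K + 2 ∧ x i ≠ K + 1
  ur : ∀ i, 0 ≤ i → i ≤ 2 * K → 2 * K + 4 ≤ u i ∧ u i + w i ≤ 8 * K + 5 ∧ (u i - x i = K + 2 ∨ 2 * K + 4 ≤ u i - x i)
  winj : ∀ i j, 0 ≤ i → i ≤ 2 * K → 0 ≤ j → j ≤ 2 * K → w i = w j → i = j
  xinj : ∀ i j, 0 ≤ i → i ≤ 2 * K → 0 ≤ j → j ≤ 2 * K → x i = x j → i = j
  uinj : ∀ i j, 0 ≤ i → i ≤ 2 * K → 0 ≤ j → j ≤ 2 * K → u i = u j → i = j
  uwinj : ∀ i j, 0 ≤ i → i ≤ 2 * K → 0 ≤ j → j ≤ 2 * K → u i + w i = u j + w j → i = j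
  uxinj : ∀ i j, 0 ≤ i → i ≤ 2 * K → 0 ≤ j → j ≤ 2 * K → u i - x i = u j - x j → i = j
  nuw : ∀ i j, 0 ≤ i → i ≤ 2 * K → 0 ≤ j → j ≤ 2 * K → u i ≠ u j + w j
  nux : ∀ i j, 0 ≤ i → i ≤ 2 * K → 0 ≤ j → j ≤ 2 * K → u i ≠ u j - x j
  nwx : ∀ i j, 0 ≤ i → i ≤ 2 * K → 0 ≤ j → j ≤ 2 * K → u i + w i ≠ u j - x j

/-- `K = 2h` -/
def uE (h a : ℤ) : ℤ :=
  if a < h then 12 * h + 5 + a else if a < 2 * h then 12 * h + 6 + a else if a = 2 * h then 9 * h + 4
  else if a = 4 * h then 6 * h + 4 else 4 * h + 4 + a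

/-- `K = 2h` -/
def wE (h a : ℤ) : ℤ :=
  if a < h then 4 * h - 2 * a else if a < 2 * h then 4 * h - 1 - 2 * a else if a = 2 * h then 4 * h + 1
  else if a < 3 * h + 1 then 8 * h + 1 - 2 * a else if a = 4 * h then 2 * h else 8 * h - 2 * a

/-- `K = 2h` -/
def xE (h a : ℤ) : ℤ :=
  if a < h then 1 + 2 * a else if a < 2 * h then 2 + 2 * a else if a = 2 * h then 4 * h + 1
  else if a < 3 * h + 1 then 2 * a - 4 * h else if a = 4 * h then 4 * h + 2 else 2 * a - 4 * h + 1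

/-- `K = 2h + 1` -/
def uO (h a : ℤ) : ℤ :=
  if a ≤ h then 12 * h + 11 + a else if a ≤ 2 * h then 12 * h + 12 + a else if a = 2 * h + 1 then 9 * h + 9
  else if a = 4 * h + 2 then 6 * h + 7 else 4 * h + 6 + a

/-- `K = 2h + 1` -/
def wO (h a : ℤ) : ℤ :=
  if a ≤ h then 4 * h + 2 - 2 * a else if a ≤ 2 * h then 4 * h + 1 - 2 * a else if a = 2 * h + 1 then 4 * h + 3
  else if a ≤ 3 * h + 1 then 8 * h + 5 - 2 * a else if a = 4 * h + 2 then 2 * h + 1 else 8 * h + 4 - 2 * a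

/-- `K = 2h + 1` -/
def xO (h a : ℤ) : ℤ :=
  if a ≤ h then 1 + 2 * a else if a ≤ 2 * h then 2 + 2 * a else if a = 2 * h + 1 then 4 * h + 3
  else if a ≤ 3 * h + 1 then 2 * a - 4 * h - 2 else if a = 4 * h + 2 then 4 * h + 4 else 2 * a - 4 * h - 1

theorem tripE (h : ℤ) (hh : 1 ≤ h) : Trip (2 * h) (uE h) (wE h) (xE h) := by
  refine ⟨?_, ?_, ?_, ?_, ?_, ?_, ?_, ?_, ?_, ?_, ?_⟩
  · intro i h1 h2
    simp only [wE]
    split_ifs <;> omega
  · intro i h1 h2
    simp only [xE]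
    split_ifs <;> omega
  · intro i h1 h2
    simp only [uE, wE, xE]
    split_ifs <;> omega
  · intro i j h1 h2 h3 h4 he
    simp only [wE] at he
    split_ifs at he <;> omega
  · intro i j h1 h2 h3 h4 he
    simp only [xE] at he
    split_ifs at he <;> omega
  · intro i j h1 h2 h3 h4 he
    simp only [uE] at he
    split_ifs at he <;> omega
  · intro i j h1 h2 h3 h4 he
    simp only [uE, wE] at he
    split_ifs at he <;> omega
  · intro i j h1 h2 h3 h4 he
    simp only [uE, xE] at he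
    split_ifs at he <;> omega
  · intro i j h1 h2 h3 h4 he
    simp only [uE, wE] at he
    split_ifs at he <;> omega
  · intro i j h1 h2 h3 h4 he
    simp only [uE, xE] at he
    split_ifs at he <;> omega
  · intro i j h1 h2 h3 h4 he
    simp only [uE, wE, xE] at he
    split_ifs at he <;> omega

theorem tripO (h : ℤ) (hh : 0 ≤ h) : Trip (2 * h + 1) (uO h) (wO h) (xO h) := by
  refine ⟨?_, ?_, ?_, ?_, ?_, ?_, ?_, ?_, ?_, ?_, ?_⟩
  · intro i h1 h2
    simp only [wO]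
    split_ifs <;> omega
  · intro i h1 h2
    simp only [xO]
    split_ifs <;> omega
  · intro i h1 h2
    simp only [uO, wO, xO]
    split_ifs <;> omega
  · intro i j h1 h2 h3 h4 he
    simp only [wO] at he
    split_ifs at he <;> omega
  · intro i j h1 h2 h3 h4 he
    simp only [xO] at he
    split_ifs at he <;> omega
  · intro i j h1 h2 h3 h4 he
    simp only [uO] at he
    split_ifs at he <;> omega
  · intro i j h1 h2 h3 h4 he
    simp only [uO, wO] at he
    split_ifs at he <;> omega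
  · intro i j h1 h2 h3 h4 he
    simp only [uO, xO] at he
    split_ifs at he <;> omega
  · intro i j h1 h2 h3 h4 he
    simp only [uO, wO] at he
    split_ifs at he <;> omega
  · intro i j h1 h2 h3 h4 he
    simp only [uO, xO] at he
    split_ifs at he <;> omega
  · intro i j h1 h2 h3 h4 he
    simp only [uO, wO, xO] at he
    split_ifs at he <;> omega

theorem exists_trip (K : ℕ) (hK : 1 ≤ K) : ∃ u w x, Trip K u w x := by
  rcases Nat.even_or_odd' K with ⟨h, rfl | rfl⟩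
  · refine ⟨uE h, wE h, xE h, ?_⟩
    have := tripE h (by omega)
    push_cast
    exact this
  · refine ⟨uO h, wO h, xO h, ?_⟩
    have := tripO h (by omega)
    push_cast
    exact this

end Pool.Agent.Q169.GR
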