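import Pool.Agent.Q169.GR.Steady
import Pool.Agent.Q169.GR.Trip

/-!
# Graceful labelings of stacked books: three layers
-/

set_option autoImplicit false
set_option linter.unusedSimpArgs false

namespace Pool.Agent.Q169.GR

/-- the labeling of the first three layers -/
def three (K : ℤ) (u w x : ℤ → ℤ) (j i : ℕ) : ℤ :=
  if j = 0 then (if i = 0 then 10 * K + 7 else 2 * K + 1 - w (i - 1))
  else if j = 1 then (if i = 0 then 2 * K + 1 else 2 * K + 1 + u (i - 1))
  else (if i = 0 then 4 * K + 4 else 2 * K + 1 + x (i - 1))

/-- the labels of the edges in the stars -/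
def threeS (K : ℤ) (u w x : ℤ → ℤ) (j i : ℕ) : ℤ :=
  if j = 0 then 8 * K + 6 + w (i - 1) else if j = 1 then u (i - 1) else 2 * K + 3 - x (i - 1)

/-- the labels of the edges between the stars -/
def threeR (K : ℤ) (u w x : ℤ → ℤ) (j i : ℕ) : ℤ :=
  if j = 0 then (if i = 0 then 8 * K + 6 else u (i - 1) + w (i - 1))
  else (if i = 0 then 2 * K + 3 else u (i - 1) - x (i - 1))

theorem three_al (K : ℕ) (hK : 1 ≤ K) (u w x : ℤ → ℤ) (T : Trip K u w x) :
    Al (2 * K + 1) 3 (three K u w x) (10 * K + 7) (4 * K + 3) (fun i => 2 * K + 2 - x (i - 1)) := by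
  have hS : ∀ j i, j < 3 → 1 ≤ i → i ≤ 2 * K + 1 →
      ((three K u w x j 0 - three K u w x j i).natAbs : ℤ) = threeS K u w x j i := by
    intro j i hj h1 hi
    have hi0 : i ≠ 0 := by omega
    have a1 := T.wr (i - 1) (by omega) (by omega)
    have a2 := T.xr (i - 1) (by omega) (by omega)
    have a3 := T.ur (i - 1) (by omega) (by omega)
    interval_cases j <;> simp only [three, threeS, if_true, if_neg hi0, one_ne_zero, if_false,
      show (2 : ℕ) ≠ 0 from by decide, show (2 : ℕ) ≠ 1 from by decide] <;> omega
  have hR : ∀ j i, j + 1 < 3 → i ≤ 2 * K + 1 →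
      ((three K u w x j i - three K u w x (j + 1) i).natAbs : ℤ) = threeR K u w x j i := by
    intro j i hj hi
    rcases Nat.eq_zero_or_pos i with h0 | h0
    · subst h0
      have hj' : j < 2 := by omega
      interval_cases j <;> simp only [three, threeR, if_true, one_ne_zero, if_false, zero_add, one_add_one_eq_two,
      show (2 : ℕ) ≠ 0 from by decide, show (2 : ℕ) ≠ 1 from by decide] <;> omega
    · have hi0 : i ≠ 0 := by omega
      have a1 := T.wr (i - 1) (by omega) (by omega)
      have a2 := T.xr (i - 1) (by omega) (by omega)
      have a3 := T.ur (i - 1) (by omega) (by omega)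
      have hj' : j < 2 := by omega
      interval_cases j <;> simp only [three, threeR, if_true, if_neg hi0, one_ne_zero, if_false, zero_add,
        one_add_one_eq_two, show (2 : ℕ) ≠ 0 from by decide, show (2 : ℕ) ≠ 1 from by decide] <;> omega
  refine { range := ?_, vinj := ?_, star := ?_, rung := ?_, mixed := ?_, cls := ?_, centre := ?_, leaf := ?_ }
  · intro j i hj hi
    rcases Nat.eq_zero_or_pos i with h0 | h0
    · subst h0
      interval_cases j <;> simp only [three, if_true, one_ne_zero, if_false,
        show (2 : ℕ) ≠ 0 from by decide, show (2 : ℕ) ≠ 1 from by decide] <;> omega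
    · have hi0 : i ≠ 0 := by omega
      have a1 := T.wr (i - 1) (by omega) (by omega)
      have a2 := T.xr (i - 1) (by omega) (by omega)
      have a3 := T.ur (i - 1) (by omega) (by omega)
      interval_cases j <;> simp only [three, if_true, if_neg hi0, one_ne_zero, if_false,
        show (2 : ℕ) ≠ 0 from by decide, show (2 : ℕ) ≠ 1 from by decide] <;> omega
  · intro j i j' i' hj hi hj' hi' he
    rcases Nat.eq_zero_or_pos i with h0 | h0 <;> rcases Nat.eq_zero_or_pos i' with h0' | h0'
    · subst h0
      subst h0'
      interval_cases j <;> interval_cases j' <;> simp only [three, if_true, one_ne_zero, if_false,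
        show (2 : ℕ) ≠ 0 from by decide, show (2 : ℕ) ≠ 1 from by decide] at he <;> omega
    · have hi0' : i' ≠ 0 := by omega
      have a1 := T.wr (i' - 1) (by omega) (by omega)
      have a2 := T.xr (i' - 1) (by omega) (by omega)
      have a3 := T.ur (i' - 1) (by omega) (by omega)
      subst h0
      interval_cases j <;> interval_cases j' <;> simp only [three, if_true, if_neg hi0', one_ne_zero, if_false,
        show (2 : ℕ) ≠ 0 from by decide, show (2 : ℕ) ≠ 1 from by decide] at he <;> omega
    · have hi0 : i ≠ 0 := by omega
      have a1 := T.wr (i - 1) (by omega) (by omega)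
      have a2 := T.xr (i - 1) (by omega) (by omega)
      have a3 := T.ur (i - 1) (by omega) (by omega)
      subst h0'
      interval_cases j <;> interval_cases j' <;> simp only [three, if_true, if_neg hi0, one_ne_zero, if_false,
        show (2 : ℕ) ≠ 0 from by decide, show (2 : ℕ) ≠ 1 from by decide] at he <;> omega
    · have hi0 : i ≠ 0 := by omega
      have hi0' : i' ≠ 0 := by omega
      have a1 := T.wr (i - 1) (by omega) (by omega)
      have a2 := T.xr (i - 1) (by omega) (by omega)
      have a3 := T.ur (i - 1) (by omega) (by omega)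
      have b1 := T.wr (i' - 1) (by omega) (by omega)
      have b2 := T.xr (i' - 1) (by omega) (by omega)
      have b3 := T.ur (i' - 1) (by omega) (by omega)
      have c1 := T.winj (i - 1) (i' - 1) (by omega) (by omega) (by omega) (by omega)
      have c2 := T.xinj (i - 1) (i' - 1) (by omega) (by omega) (by omega) (by omega)
      have c3 := T.uinj (i - 1) (i' - 1) (by omega) (by omega) (by omega) (by omega)
      interval_cases j <;> interval_cases j' <;> simp only [three, if_true, if_neg hi0, if_neg hi0', one_ne_zero,
        if_false, show (2 : ℕ) ≠ 0 from by decide, show (2 : ℕ) ≠ 1 from by decide] at he <;> omega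
  · intro j i j' i' hj h1 hi hj' h1' hi' he
    have e : threeS K u w x j i = threeS K u w x j' i' := by
      rw [← hS j i hj h1 hi, ← hS j' i' hj' h1' hi', he]
    have a1 := T.wr (i - 1) (by omega) (by omega)
    have a2 := T.xr (i - 1) (by omega) (by omega)
    have a3 := T.ur (i - 1) (by omega) (by omega)
    have b1 := T.wr (i' - 1) (by omega) (by omega)
    have b2 := T.xr (i' - 1) (by omega) (by omega)
    have b3 := T.ur (i' - 1) (by omega) (by omega)
    have c1 := T.winj (i - 1) (i' - 1) (by omega) (by omega) (by omega) (by omega)
    have c2 := T.xinj (i - 1) (i' - 1) (by omega) (by omega) (by omega) (by omega)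
    have c3 := T.uinj (i - 1) (i' - 1) (by omega) (by omega) (by omega) (by omega)
    interval_cases j <;> interval_cases j' <;> simp only [threeS, if_true, one_ne_zero,
        if_false, show (2 : ℕ) ≠ 0 from by decide, show (2 : ℕ) ≠ 1 from by decide] at e <;> omega
  · intro j i j' i' hj hi hj' hi' he
    have e : threeR K u w x j i = threeR K u w x j' i' := by
      rw [← hR j i hj hi, ← hR j' i' hj' hi', he]
    have hj2 : j < 2 := by omega
    have hj2' : j' < 2 := by omega
    clear he
    rcases Nat.eq_zero_or_pos i with h0 | h0 <;> rcases Nat.eq_zero_or_pos i' with h0' | h0'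
    · subst h0
      subst h0'
      interval_cases j <;> interval_cases j' <;> simp only [threeR, if_true, one_ne_zero, if_false] at e <;> omega
    · have hi0' : i' ≠ 0 := by omega
      have a1 := T.wr (i' - 1) (by omega) (by omega)
      have a2 := T.xr (i' - 1) (by omega) (by omega)
      have a3 := T.ur (i' - 1) (by omega) (by omega)
      subst h0
      interval_cases j <;> interval_cases j' <;> simp only [threeR, if_true, if_neg hi0', one_ne_zero,
        if_false] at e <;> omega
    · have hi0 : i ≠ 0 := by omega
      have a1 := T.wr (i - 1) (by omega) (by omega)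
      have a2 := T.xr (i - 1) (by omega) (by omega)
      have a3 := T.ur (i - 1) (by omega) (by omega)
      subst h0'
      interval_cases j <;> interval_cases j' <;> simp only [threeR, if_true, if_neg hi0, one_ne_zero,
        if_false] at e <;> omega
    · have hi0 : i ≠ 0 := by omega
      have hi0' : i' ≠ 0 := by omega
      have c1 := T.uwinj (i - 1) (i' - 1) (by omega) (by omega) (by omega) (by omega)
      have c2 := T.uxinj (i - 1) (i' - 1) (by omega) (by omega) (by omega) (by omega)
      have c3 := T.nwx (i - 1) (i' - 1) (by omega) (by omega) (by omega) (by omega)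
      have c4 := T.nwx (i' - 1) (i - 1) (by omega) (by omega) (by omega) (by omega)
      interval_cases j <;> interval_cases j' <;> simp only [threeR, if_true, if_neg hi0, if_neg hi0', one_ne_zero,
        if_false] at e <;> omega
  · intro j i j' i' hj h1 hi hj' hi' he
    have e : threeS K u w x j i = threeR K u w x j' i' := by
      rw [← hS j i hj h1 hi, ← hR j' i' hj' hi', he]
    have hj2' : j' < 2 := by omega
    clear he
    have a1 := T.wr (i - 1) (by omega) (by omega)
    have a2 := T.xr (i - 1) (by omega) (by omega)
    have a3 := T.ur (i - 1) (by omega) (by omega)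
    rcases Nat.eq_zero_or_pos i' with h0' | h0'
    · subst h0'
      interval_cases j <;> interval_cases j' <;> simp only [threeS, threeR, if_true, one_ne_zero,
        if_false, show (2 : ℕ) ≠ 0 from by decide, show (2 : ℕ) ≠ 1 from by decide] at e <;> omega
    · have hi0' : i' ≠ 0 := by omega
      have b1 := T.wr (i' - 1) (by omega) (by omega)
      have b2 := T.xr (i' - 1) (by omega) (by omega)
      have b3 := T.ur (i' - 1) (by omega) (by omega)
      have c1 := T.nuw (i - 1) (i' - 1) (by omega) (by omega) (by omega) (by omega)
      have c2 := T.nux (i - 1) (i' - 1) (by omega) (by omega) (by omega) (by omega)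
      interval_cases j <;> interval_cases j' <;> simp only [threeS, threeR, if_true, if_neg hi0', one_ne_zero,
        if_false, show (2 : ℕ) ≠ 0 from by decide, show (2 : ℕ) ≠ 1 from by decide] at e <;> omega
  · intro j i hj hi
    rcases Nat.eq_zero_or_pos i with h0 | h0
    · subst h0
      interval_cases j <;> simp only [three, if_true, one_ne_zero, if_false, iff_true,
        show (2 : ℕ) ≠ 0 from by decide, show (2 : ℕ) ≠ 1 from by decide] <;> omega
    · have hi0 : i ≠ 0 := by omega
      have a1 := T.wr (i - 1) (by omega) (by omega)
      have a2 := T.xr (i - 1) (by omega) (by omega)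
      have a3 := T.ur (i - 1) (by omega) (by omega)
      interval_cases j <;> simp only [three, if_true, if_neg hi0, one_ne_zero, if_false, iff_true,
        show (2 : ℕ) ≠ 0 from by decide, show (2 : ℕ) ≠ 1 from by decide] <;> omega
  · simp only [three, if_true, if_false, show (3 - 1 : ℕ) ≠ 0 from by decide, show (3 - 1 : ℕ) ≠ 1 from by decide]
    ring
  · intro i h1 hi
    have hi0 : i ≠ 0 := by omega
    simp only [three, if_neg hi0, if_false, show (3 - 1 : ℕ) ≠ 0 from by decide, show (3 - 1 : ℕ) ≠ 1 from by decide]
    ring

theorem graceful_three (K : ℕ) (hK : 1 ≤ K) (n : ℕ) (hn : 3 ≤ n) : Graceful (book (2 * K + 1) n) := by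
  obtain ⟨u, w, x, T⟩ := exists_trip K hK
  refine graceful_of_steady K 3 hK (by omega) ⟨three K u w x, 4 * K + 3, fun i => 2 * K + 2 - x (i - 1), ?_, ?_, ?_⟩ n hn
  · have h := three_al K hK u w x T
    have hq : (10 * (K : ℤ) + 7) = (((3 * (2 * K + 1) + (3 - 1) * (2 * K + 1 + 1) : ℕ)) : ℤ) := by
      push_cast
      ring
    rw [hq] at h
    exact h
  · intro i h1 hi
    have a2 := T.xr (i - 1) (by omega) (by omega)
    simp only [InD]
    omega
  · intro i i' h1 hi h1' hi' he
    have c2 := T.xinj (i - 1) (i' - 1) (by omega) (by omega) (by omega) (by omega)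
    simp only at he
    omega

end Pool.Agent.Q169.GR
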