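import Mathlib

/-!
# Graceful labelings of stacked books: the edges, and a criterion
-/

set_option autoImplicit false
set_option linter.unusedSimpArgs false

open SimpleGraph

namespace Pool.Agent.Q169.GR

/-- A graph with `q` edges is graceful if there is an injective map `f` from the vertices to `{0, ..., q}` such that
the edge labels `|f a - f b|` are pairwise distinct. -/
def Graceful {V : Type} (G : SimpleGraph V) : Prop :=
  ∃ f : V → ℕ, Function.Injective f ∧ (∀ v, f v ≤ G.edgeSet.ncard) ∧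
    ∀ a b c d : V, G.Adj a b → G.Adj c d → |(f a : ℤ) - f b| = |(f c : ℤ) - f d| → s(a, b) = s(c, d)

/-- The stacked book `S_k × P_n`: the box product of the star with `k` leaves (centre `0`) and the path with `n` vertices. -/
abbrev book (k n : ℕ) : SimpleGraph (Fin (k + 1) × Fin n) := starGraph (0 : Fin (k + 1)) □ pathGraph n

/-- the type of the edges -/
abbrev Ed (k n : ℕ) : Type := (Fin n × Fin k) ⊕ (Fin (n - 1) × Fin (k + 1))

/-- the edges of the stacked book -/
def edge (k n : ℕ) : Ed k n → Sym2 (Fin (k + 1) × Fin n)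
  | Sum.inl (j, i) => s((0, j), (i.succ, j))
  | Sum.inr (j, i) => s((i, ⟨j, by omega⟩), (i, ⟨j + 1, by omega⟩))

theorem edge_injective (k n : ℕ) : Function.Injective (edge k n) := by
  rintro (⟨j, i⟩ | ⟨j, i⟩) (⟨j', i'⟩ | ⟨j', i'⟩) h
  · simp only [edge, Sym2.eq_iff, Prod.mk.injEq, Fin.ext_iff, Fin.val_succ, Fin.val_zero] at h
    simp only [Sum.inl.injEq, Prod.mk.injEq, Fin.ext_iff]
    omega
  · simp only [edge, Sym2.eq_iff, Prod.mk.injEq, Fin.ext_iff, Fin.val_succ, Fin.val_zero] at h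
    omega
  · simp only [edge, Sym2.eq_iff, Prod.mk.injEq, Fin.ext_iff, Fin.val_succ, Fin.val_zero] at h
    omega
  · simp only [edge, Sym2.eq_iff, Prod.mk.injEq, Fin.ext_iff] at h
    simp only [Sum.inr.injEq, Prod.mk.injEq, Fin.ext_iff]
    omega

theorem adj_edge {k n : ℕ} {a b : Fin (k + 1) × Fin n} (h : (book k n).Adj a b) : ∃ x, edge k n x = s(a, b) := by
  obtain ⟨i, j⟩ := a
  obtain ⟨i', j'⟩ := b
  simp only [boxProd_adj, starGraph_adj, pathGraph_adj] at h
  rcases h with ⟨⟨h1, h2 | h2⟩, h3⟩ | ⟨h1 | h1, h2⟩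
  · subst h3 h2
    have : 0 < (i' : ℕ) := by
      rcases Nat.eq_zero_or_pos (i' : ℕ) with h | h
      · exact absurd (Fin.ext h.symm) h1
      · exact h
    refine ⟨Sum.inl (j, ⟨i' - 1, by omega⟩), ?_⟩
    simp only [edge, Sym2.eq_iff, Prod.mk.injEq, Fin.ext_iff, Fin.val_succ, Fin.val_zero, true_and, and_true]
    omega
  · subst h3 h2
    have : 0 < (i : ℕ) := by
      rcases Nat.eq_zero_or_pos (i : ℕ) with h | h
      · exact absurd (Fin.ext h) h1
      · exact h
    refine ⟨Sum.inl (j, ⟨i - 1, by omega⟩), ?_⟩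
    simp only [edge, Sym2.eq_iff, Prod.mk.injEq, Fin.ext_iff, Fin.val_succ, Fin.val_zero, true_and, and_true]
    omega
  · subst h2
    refine ⟨Sum.inr (⟨j, by omega⟩, i), ?_⟩
    simp only [edge, Sym2.eq_iff, Prod.mk.injEq, Fin.ext_iff, true_and, and_true]
    omega
  · subst h2
    refine ⟨Sum.inr (⟨j', by omega⟩, i), ?_⟩
    simp only [edge, Sym2.eq_iff, Prod.mk.injEq, Fin.ext_iff, true_and, and_true]
    omega

theorem edge_mem (k n : ℕ) (x : Ed k n) : edge k n x ∈ (book k n).edgeSet := by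
  rcases x with ⟨j, i⟩ | ⟨j, i⟩
  · simp only [edge, mem_edgeSet, boxProd_adj, starGraph_adj, ne_eq, Fin.ext_iff, Fin.val_succ, Fin.val_zero,
      true_or, and_true]
    exact Or.inl (by omega)
  · simp only [edge, mem_edgeSet, boxProd_adj, pathGraph_adj, true_or, and_true]
    exact Or.inr trivial

theorem range_edge (k n : ℕ) : Set.range (edge k n) = (book k n).edgeSet := by
  ext e
  constructor
  · rintro ⟨x, rfl⟩
    exact edge_mem k n x
  · induction e using Sym2.ind with
    | _ a b => exact fun h => adj_edge h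

theorem ncard_book (k n : ℕ) : (book k n).edgeSet.ncard = n * k + (n - 1) * (k + 1) := by
  rw [← range_edge, ← Set.image_univ, Set.ncard_image_of_injective _ (edge_injective k n), Set.ncard_univ]
  simp [Nat.card_eq_fintype_card]

/-- a labeling of the layers `0, ..., n - 1` of the stacked book; the vertex `0` is the centre -/
structure Lab (k n : ℕ) (F : ℕ → ℕ → ℤ) (q : ℤ) : Prop where
  range : ∀ j i, j < n → i ≤ k → 0 ≤ F j i ∧ F j i ≤ q
  vinj : ∀ j i j' i', j < n → i ≤ k → j' < n → i' ≤ k → F j i = F j' i' → j = j' ∧ i = i'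
  star : ∀ j i j' i', j < n → 1 ≤ i → i ≤ k → j' < n → 1 ≤ i' → i' ≤ k →
    (F j 0 - F j i).natAbs = (F j' 0 - F j' i').natAbs → j = j' ∧ i = i'
  rung : ∀ j i j' i', j + 1 < n → i ≤ k → j' + 1 < n → i' ≤ k →
    (F j i - F (j + 1) i).natAbs = (F j' i' - F (j' + 1) i').natAbs → j = j' ∧ i = i'
  mixed : ∀ j i j' i', j < n → 1 ≤ i → i ≤ k → j' + 1 < n → i' ≤ k →
    (F j 0 - F j i).natAbs ≠ (F j' i' - F (j' + 1) i').natAbs

theorem Lab.graceful {k n : ℕ} {F : ℕ → ℕ → ℤ} {q : ℤ} (h : Lab k n F q)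
    (hq : q = ((n * k + (n - 1) * (k + 1) : ℕ) : ℤ)) : Graceful (book k n) := by
  have hc : ∀ v : Fin (k + 1) × Fin n, (((F v.2 v.1).toNat : ℕ) : ℤ) = F v.2 v.1 := fun v =>
    Int.toNat_of_nonneg (h.range v.2 v.1 v.2.2 (by omega)).1
  refine ⟨fun v => (F v.2 v.1).toNat, ?_, ?_, ?_⟩
  · intro v v' hvv
    have h1 : F v.2 v.1 = F v'.2 v'.1 := by
      rw [← hc v, ← hc v']
      exact_mod_cast hvv
    obtain ⟨h2, h3⟩ := h.vinj _ _ _ _ v.2.2 (by omega) v'.2.2 (by omega) h1
    exact Prod.ext (Fin.ext h3) (Fin.ext h2)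
  · intro v
    rw [ncard_book]
    have := (h.range v.2 v.1 v.2.2 (by omega)).2
    have h2 := hc v
    simp only
    omega
  · intro a b c d hab hcd hl
    simp only [hc] at hl
    obtain ⟨x, hx⟩ := adj_edge hab
    obtain ⟨y, hy⟩ := adj_edge hcd
    rw [← hx, ← hy]
    congr 1
    have key : ∀ (x : Ed k n) (a b : Fin (k + 1) × Fin n), edge k n x = s(a, b) →
        |F a.2 a.1 - F b.2 b.1| = (match x with
          | Sum.inl (j, i) => (((F j 0 - F j (i + 1)).natAbs : ℕ) : ℤ)
          | Sum.inr (j, i) => (((F j i - F (j + 1) i).natAbs : ℕ) : ℤ)) := by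
      intro x a b hx
      rcases x with ⟨j, i⟩ | ⟨j, i⟩
      · simp only [edge, Sym2.eq_iff] at hx
        rcases hx with ⟨h1, h2⟩ | ⟨h1, h2⟩
        · rw [← h1, ← h2]
          simp
        · rw [← h1, ← h2, abs_sub_comm]
          simp
      · simp only [edge, Sym2.eq_iff] at hx
        rcases hx with ⟨h1, h2⟩ | ⟨h1, h2⟩
        · rw [← h1, ← h2]
          simp
        · rw [← h1, ← h2, abs_sub_comm]
          simp
    rw [key x a b hx, key y c d hy] at hl
    rcases x with ⟨j, i⟩ | ⟨j, i⟩ <;> rcases y with ⟨j', i'⟩ | ⟨j', i'⟩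
    · simp only [Nat.cast_inj] at hl
      have := h.star _ _ _ _ j.2 (by omega) (by omega) j'.2 (by omega) (by omega) hl
      simp only [Sum.inl.injEq, Prod.mk.injEq, Fin.ext_iff]
      omega
    · simp only [Nat.cast_inj] at hl
      exact absurd hl (h.mixed _ _ _ _ j.2 (by omega) (by omega) (by omega) (by omega))
    · simp only [Nat.cast_inj] at hl
      exact absurd hl.symm (h.mixed _ _ _ _ j'.2 (by omega) (by omega) (by omega) (by omega))
    · simp only [Nat.cast_inj] at hl
      have := h.rung _ _ _ _ (by omega) (by omega) (by omega) (by omega) hl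
      simp only [Sum.inr.injEq, Prod.mk.injEq, Fin.ext_iff]
      omega

end Pool.Agent.Q169.GR
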