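import Pool.Agent.Q169.GR.Step

/-!
# Graceful labelings of stacked books: the steady state
-/

set_option autoImplicit false
set_option linter.unusedSimpArgs false

namespace Pool.Agent.Q169.GR

/-- the offsets of the leaves of the last layer: `{0, ..., 2K+1}` without `K+1` -/
def InD (K d : ℤ) : Prop := 0 ≤ d ∧ d ≤ 2 * K + 1 ∧ d ≠ K + 1

/-- the new offsets, `K = 2 h` -/
def sigE (h d : ℤ) : ℤ :=
  if d = 0 then 1 else if d = 4 * h + 1 then 0 else if d = h then d + 2 * h + 2
  else if d = h + 1 then d else if d = 3 * h + 1 then d else if d ≤ 2 * h then d + 2 * h + 1 else d - 2 * h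

/-- the new offsets, `K = 2 h + 1`, `h > 0` -/
def sigO (h d : ℤ) : ℤ :=
  if d = 0 then 1 else if d = 4 * h + 3 then 0 else if d = h + 1 then d + 1
  else if d = 3 * h + 2 then d + 1 else if d = 3 * h + 3 then d - (2 * h + 2)
  else if d ≤ 2 * h + 1 then d + 2 * h + 2 else d - (2 * h + 1)

/-- the new offsets, `K = 1` -/
def sigOne (d : ℤ) : ℤ := if d = 0 then 1 else if d = 1 then 3 else 0

/-- the properties of the map on the offsets -/
structure Good (K : ℤ) (s : ℤ → ℤ) : Prop where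
  maps : ∀ d, InD K d → InD K (s d)
  inj : ∀ d d', InD K d → InD K d' → s d = s d' → d = d'
  sum : ∀ d d', InD K d → InD K d' → d + s d = d' + s d' → d = d'
  range : ∀ d, InD K d → K + d + s d < 4 * K + 3
  notD : ∀ d, InD K d → ¬ InD K (K + d + s d)
  ne : ∀ d, InD K d → K + d + s d ≠ 3 * K + 3

theorem goodE (h : ℤ) (hh : 1 ≤ h) : Good (2 * h) (sigE h) := by
  refine ⟨?_, ?_, ?_, ?_, ?_, ?_⟩
  · intro d hd
    simp only [InD, sigE] at *
    split_ifs <;> omega
  · intro d d' hd hd' he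
    simp only [InD, sigE] at *
    split_ifs at he <;> omega
  · intro d d' hd hd' he
    simp only [InD, sigE] at *
    split_ifs at he <;> omega
  · intro d hd
    simp only [InD, sigE] at *
    split_ifs <;> omega
  · intro d hd
    simp only [InD, sigE] at *
    split_ifs <;> omega
  · intro d hd
    simp only [InD, sigE] at *
    split_ifs <;> omega

theorem goodO (h : ℤ) (hh : 1 ≤ h) : Good (2 * h + 1) (sigO h) := by
  refine ⟨?_, ?_, ?_, ?_, ?_, ?_⟩
  · intro d hd
    simp only [InD, sigO] at *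
    split_ifs <;> omega
  · intro d d' hd hd' he
    simp only [InD, sigO] at *
    split_ifs at he <;> omega
  · intro d d' hd hd' he
    simp only [InD, sigO] at *
    split_ifs at he <;> omega
  · intro d hd
    simp only [InD, sigO] at *
    split_ifs <;> omega
  · intro d hd
    simp only [InD, sigO] at *
    split_ifs <;> omega
  · intro d hd
    simp only [InD, sigO] at *
    split_ifs <;> omega

theorem goodOne : Good 1 sigOne := by
  refine ⟨?_, ?_, ?_, ?_, ?_, ?_⟩
  · intro d hd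
    simp only [InD, sigOne] at *
    split_ifs <;> omega
  · intro d d' hd hd' he
    simp only [InD, sigOne] at *
    split_ifs at he <;> omega
  · intro d d' hd hd' he
    simp only [InD, sigOne] at *
    split_ifs at he <;> omega
  · intro d hd
    simp only [InD, sigOne] at *
    split_ifs <;> omega
  · intro d hd
    simp only [InD, sigOne] at *
    split_ifs <;> omega
  · intro d hd
    simp only [InD, sigOne] at *
    split_ifs <;> omega

theorem exists_good (K : ℕ) (hK : 1 ≤ K) : ∃ s, Good K s := by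
  rcases Nat.even_or_odd' K with ⟨h, rfl | rfl⟩
  · refine ⟨sigE h, ?_⟩
    have := goodE h (by omega)
    push_cast
    exact this
  · rcases Nat.eq_zero_or_pos h with rfl | h0
    · exact ⟨sigOne, goodOne⟩
    · refine ⟨sigO h, ?_⟩
      have := goodO h (by omega)
      push_cast
      exact this

/-- The induction over the number of layers. -/
theorem steady (K n₀ : ℕ) (hK : 1 ≤ K) (hn₀ : 1 ≤ n₀)
    (base : ∃ (F : ℕ → ℕ → ℤ) (lam : ℤ) (d : ℕ → ℤ),
      Al (2 * K + 1) n₀ F (((n₀ * (2 * K + 1) + (n₀ - 1) * (2 * K + 1 + 1) : ℕ)) : ℤ) lam d ∧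
        (∀ i, 1 ≤ i → i ≤ 2 * K + 1 → InD K (d i)) ∧
        ∀ i i', 1 ≤ i → i ≤ 2 * K + 1 → 1 ≤ i' → i' ≤ 2 * K + 1 → d i = d i' → i = i') :
    ∀ n, n₀ ≤ n → ∃ (F : ℕ → ℕ → ℤ) (lam : ℤ) (d : ℕ → ℤ),
      Al (2 * K + 1) n F (((n * (2 * K + 1) + (n - 1) * (2 * K + 1 + 1) : ℕ)) : ℤ) lam d ∧
        (∀ i, 1 ≤ i → i ≤ 2 * K + 1 → InD K (d i)) ∧
        ∀ i i', 1 ≤ i → i ≤ 2 * K + 1 → 1 ≤ i' → i' ≤ 2 * K + 1 → d i = d i' → i = i' := by
  intro n hn
  induction n, hn using Nat.le_induction with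
  | base => exact base
  | succ n hn ih =>
    obtain ⟨F, lam, d, hA, hD, hinj⟩ := ih
    obtain ⟨s, hs⟩ := exists_good K hK
    have hKz : (1 : ℤ) ≤ K := by exact_mod_cast hK
    have key := hA.step (by omega) (4 * K + 3) K (fun i => s (d i)) hKz (by omega) ?_ ?_ ?_ ?_ ?_ ?_ ?_
    · have hq : (((n * (2 * K + 1) + (n - 1) * (2 * K + 1 + 1) : ℕ)) : ℤ) + (4 * K + 3) =
          ((((n + 1) * (2 * K + 1) + (n + 1 - 1) * (2 * K + 1 + 1) : ℕ)) : ℤ) := by
        obtain ⟨m, rfl⟩ : ∃ m, n = m + 1 := ⟨n - 1, by omega⟩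
        simp only [Nat.add_sub_cancel]
        push_cast
        ring
      rw [hq] at key
      exact ⟨_, _, _, key, fun i h1 hi => hs.maps _ (hD i h1 hi), fun i i' h1 hi h1' hi' he =>
        hinj i i' h1 hi h1' hi' (hs.inj _ _ (hD i h1 hi) (hD i' h1' hi') he)⟩
    · intro i h1 hi
      have := hs.maps _ (hD i h1 hi)
      simp only [InD] at this
      omega
    · intro i h1 hi
      have h2 := hs.maps _ (hD i h1 hi)
      have h3 := hD i h1 hi
      have h4 := hs.range _ (hD i h1 hi)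
      simp only [InD] at h2 h3
      omega
    · intro i i' h1 hi h1' hi' he
      exact hinj i i' h1 hi h1' hi' (hs.inj _ _ (hD i h1 hi) (hD i' h1' hi') he)
    · intro i i' h1 hi h1' hi' he
      exact hinj i i' h1 hi h1' hi' (hs.sum _ _ (hD i h1 hi) (hD i' h1' hi') he)
    · intro i i' h1 hi h1' hi' he
      have h2 := hs.maps _ (hD i h1 hi)
      rw [he] at h2
      exact hs.notD _ (hD i' h1' hi') h2
    · intro i h1 hi he
      have h2 := hs.maps _ (hD i h1 hi)
      simp only [InD] at h2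
      omega
    · intro i h1 hi he
      have h2 := hs.ne _ (hD i h1 hi)
      omega

theorem graceful_of_steady (K n₀ : ℕ) (hK : 1 ≤ K) (hn₀ : 1 ≤ n₀)
    (base : ∃ (F : ℕ → ℕ → ℤ) (lam : ℤ) (d : ℕ → ℤ),
      Al (2 * K + 1) n₀ F (((n₀ * (2 * K + 1) + (n₀ - 1) * (2 * K + 1 + 1) : ℕ)) : ℤ) lam d ∧
        (∀ i, 1 ≤ i → i ≤ 2 * K + 1 → InD K (d i)) ∧
        ∀ i i', 1 ≤ i → i ≤ 2 * K + 1 → 1 ≤ i' → i' ≤ 2 * K + 1 → d i = d i' → i = i') :
    ∀ n, n₀ ≤ n → Graceful (book (2 * K + 1) n) := by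
  intro n hn
  obtain ⟨F, lam, d, hA, -, -⟩ := steady K n₀ hK hn₀ base n hn
  exact hA.toLab.graceful rfl

/-- the base of the induction for `K = 0` -/
theorem ladder (n : ℕ) (hn : 1 ≤ n) : ∃ (F : ℕ → ℕ → ℤ) (lam : ℤ),
    Al 1 n F (((n * 1 + (n - 1) * (1 + 1) : ℕ)) : ℤ) lam (fun _ => 0) := by
  induction n, hn using Nat.le_induction with
  | base =>
    refine ⟨fun _ i => if i = 0 then 1 else 0, 0, ?_⟩
    refine { range := ?_, vinj := ?_, star := ?_, rung := ?_, mixed := ?_, cls := ?_, centre := ?_, leaf := ?_ }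
    · intro j i hj hi
      split_ifs <;> simp
    · intro j i j' i' hj hi hj' hi' he
      split_ifs at he <;> omega
    · intro j i j' i' hj h1 hi hj' h1' hi' he
      omega
    · intro j i j' i' hj
      omega
    · intro j i j' i' hj h1 hi hj'
      omega
    · intro j i hj hi
      split_ifs <;> omega
    · simp
    · intro i h1 hi
      have : i ≠ 0 := by omega
      simp [this]
  | succ n hn ih =>
    obtain ⟨F, lam, hA⟩ := ih
    have key := hA.step (by omega) 3 1 (fun _ => 0) (by omega) (by omega) (by intros; omega) (by intros; omega)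
      (by intros; omega) (by intros; omega) (by intros; omega) (by intros; omega) (by intros; omega)
    have hq : (((n * 1 + (n - 1) * (1 + 1) : ℕ)) : ℤ) + 3 = ((((n + 1) * 1 + (n + 1 - 1) * (1 + 1) : ℕ)) : ℤ) := by
      omega
    rw [hq] at key
    exact ⟨_, _, key⟩

theorem graceful_ladder (n : ℕ) (hn : 1 ≤ n) : Graceful (book 1 n) := by
  obtain ⟨F, lam, hA⟩ := ladder n hn
  exact hA.toLab.graceful rfl

end Pool.Agent.Q169.GR
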