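import Pool.Agent.Q169.GR.Core

/-!
# Graceful labelings of stacked books: inserting a layer
-/

set_option autoImplicit false
set_option linter.unusedSimpArgs false

namespace Pool.Agent.Q169.GR

/-- A labeling with a threshold: every edge joins a label `≤ lam` and a label `> lam`; the centre of the last layer
has the label `lam + 1`, its leaves have the labels `lam - d i`. -/
structure Al (k n : ℕ) (F : ℕ → ℕ → ℤ) (q lam : ℤ) (d : ℕ → ℤ) : Prop extends Lab k n F q where
  cls : ∀ j i, j < n → i ≤ k → (lam < F j i ↔ (n + j + (if i = 0 then 1 else 0)) % 2 = 0)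
  centre : F (n - 1) 0 = lam + 1
  leaf : ∀ i, 1 ≤ i → i ≤ k → F (n - 1) i = lam - d i

/-- the labeling with one more layer -/
def next (n : ℕ) (F : ℕ → ℕ → ℤ) (q lam t c : ℤ) (s : ℕ → ℤ) (j i : ℕ) : ℤ :=
  if j < n then (if lam < F j i then q - F j i else q + t - F j i)
  else if i = 0 then q + t - lam - c else q + t - lam - c - 1 - s i

theorem Al.step {k n : ℕ} {F : ℕ → ℕ → ℤ} {q lam : ℤ} {d : ℕ → ℤ} (h : Al k n F q lam d) (hn : 1 ≤ n)
    (t c : ℤ) (s : ℕ → ℤ) (hc : 1 ≤ c) (hct : c ≤ t)
    (hs : ∀ i, 1 ≤ i → i ≤ k → 0 ≤ s i ∧ c + 1 + s i ≤ t) (hd : ∀ i, 1 ≤ i → i ≤ k → 0 ≤ c + d i + s i ∧ c + d i + s i < t)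
    (hsi : ∀ i i', 1 ≤ i → i ≤ k → 1 ≤ i' → i' ≤ k → s i = s i' → i = i')
    (hdi : ∀ i i', 1 ≤ i → i ≤ k → 1 ≤ i' → i' ≤ k → d i + s i = d i' + s i' → i = i')
    (hsd : ∀ i i', 1 ≤ i → i ≤ k → 1 ≤ i' → i' ≤ k → s i ≠ c + d i' + s i')
    (hst : ∀ i, 1 ≤ i → i ≤ k → s i ≠ t - c) (hdt : ∀ i, 1 ≤ i → i ≤ k → c + d i + s i ≠ t - c) :
    Al k (n + 1) (next n F q lam t c s) (q + t) (q + t - lam - c - 1) s := by
  have hlow : ∀ j i, j < n → i ≤ k → ¬ lam < F j i → next n F q lam t c s j i = q + t - F j i := by
    intro j i hj hi hl
    simp only [next, if_pos hj, if_neg hl]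
  have hhigh : ∀ j i, j < n → i ≤ k → lam < F j i → next n F q lam t c s j i = q - F j i := by
    intro j i hj hi hl
    simp only [next, if_pos hj, if_pos hl]
  have hnew0 : next n F q lam t c s n 0 = q + t - lam - c := by simp [next]
  have hnew : ∀ i, 1 ≤ i → next n F q lam t c s n i = q + t - lam - c - 1 - s i := by
    intro i hi
    have : i ≠ 0 := by omega
    simp [next, this]
  have hlast0 : F (n - 1) 0 = lam + 1 := h.centre
  have hlast := h.leaf
  -- the star edges
  have hstar : ∀ j i, j < n → 1 ≤ i → i ≤ k →
      ((next n F q lam t c s j 0 - next n F q lam t c s j i).natAbs : ℤ) = (F j 0 - F j i).natAbs + t := by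
    intro j i hj h1 hi
    have c0 := h.cls j 0 hj (Nat.zero_le k)
    have c1 := h.cls j i hj hi
    have hi0 : i ≠ 0 := by omega
    simp only [if_true, if_neg hi0] at c0 c1
    by_cases hh : lam < F j 0
    · have hl : ¬ lam < F j i := by
        rw [c1]
        rw [c0] at hh
        omega
      rw [hhigh j 0 hj (Nat.zero_le k) hh, hlow j i hj hi hl]
      omega
    · have hl : lam < F j i := by
        rw [c1]
        rw [c0] at hh
        omega
      rw [hlow j 0 hj (Nat.zero_le k) hh, hhigh j i hj hi hl]
      omega
  have hrung : ∀ j i, j + 1 < n → i ≤ k →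
      ((next n F q lam t c s j i - next n F q lam t c s (j + 1) i).natAbs : ℤ) = (F j i - F (j + 1) i).natAbs + t := by
    intro j i hj hi
    have c0 := h.cls j i (by omega) hi
    have c1 := h.cls (j + 1) i hj hi
    by_cases hh : lam < F j i
    · have hl : ¬ lam < F (j + 1) i := by
        rw [c1]
        rw [c0] at hh
        omega
      rw [hhigh j i (by omega) hi hh, hlow (j + 1) i hj hi hl]
      omega
    · have hl : lam < F (j + 1) i := by
        rw [c1]
        rw [c0] at hh
        omega
      rw [hlow j i (by omega) hi hh, hhigh (j + 1) i hj hi hl]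
      omega
  have hstarN : ∀ i, 1 ≤ i → i ≤ k →
      ((next n F q lam t c s n 0 - next n F q lam t c s n i).natAbs : ℤ) = 1 + s i := by
    intro i h1 hi
    rw [hnew0, hnew i h1]
    have := hs i h1 hi
    omega
  have hrungN : ∀ j i, j + 1 = n → 1 ≤ i → i ≤ k →
      ((next n F q lam t c s j i - next n F q lam t c s (j + 1) i).natAbs : ℤ) = 1 + (c + d i + s i) := by
    intro j i hj h1 hi
    have hjn : j = n - 1 := by omega
    have hF : F j i = lam - d i := by rw [hjn]; exact hlast i h1 hi
    have c1 := h.cls j i (by omega) hi
    have hi0 : i ≠ 0 := by omega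
    have hl : ¬ lam < F j i := by
      rw [c1, if_neg hi0]
      omega
    rw [hlow j i (by omega) hi hl, hj, hnew i h1, hF]
    have := hd i h1 hi
    omega
  have hrung0 : ∀ j, j + 1 = n →
      ((next n F q lam t c s j 0 - next n F q lam t c s (j + 1) 0).natAbs : ℤ) = 1 + (t - c) := by
    intro j hj
    have hjn : j = n - 1 := by omega
    have hF : F j 0 = lam + 1 := by rw [hjn]; exact hlast0
    rw [hhigh j 0 (by omega) (Nat.zero_le k) (by omega), hj, hnew0, hF]
    omega
  have hpos : ∀ j i, j < n → 1 ≤ i → i ≤ k → 1 ≤ (F j 0 - F j i).natAbs := by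
    intro j i hj h1 hi
    by_contra hcon
    have : F j 0 = F j i := by omega
    have := h.vinj j 0 j i hj (Nat.zero_le k) hj hi this
    omega
  have hpos2 : ∀ j i, j + 1 < n → i ≤ k → 1 ≤ (F j i - F (j + 1) i).natAbs := by
    intro j i hj hi
    by_contra hcon
    have : F j i = F (j + 1) i := by omega
    have := h.vinj j i (j + 1) i (by omega) hi hj hi this
    omega
  have hsz : ∀ j i, j < n → i ≤ k → next n F q lam t c s j i ≤ q - lam - 1 ∨ q + t - lam ≤ next n F q lam t c s j i := by
    intro j i hj hi
    by_cases hh : lam < F j i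
    · rw [hhigh j i hj hi hh]; omega
    · rw [hlow j i hj hi hh]; omega
  have hszN : ∀ i, i ≤ k → q - lam - 1 < next n F q lam t c s n i ∧ next n F q lam t c s n i < q + t - lam := by
    intro i hi
    rcases Nat.eq_zero_or_pos i with h0 | h0
    · rw [h0, hnew0]; omega
    · rw [hnew i h0]
      have := hs i h0 hi
      omega
  refine { range := ?_, vinj := ?_, star := ?_, rung := ?_, mixed := ?_, cls := ?_, centre := ?_, leaf := ?_ }
  · intro j i hj hi
    by_cases hjn : j < n
    · have hr := h.range j i hjn hi
      by_cases hh : lam < F j i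
      · rw [hhigh j i hjn hi hh]; omega
      · rw [hlow j i hjn hi hh]; omega
    · have : j = n := by omega
      subst this
      have h1 := hszN i hi
      have h2 := h.range (j - 1) 0 (by omega) (Nat.zero_le k)
      rw [hlast0] at h2
      have h3 : 0 ≤ lam ∨ k = 0 := by
        rcases Nat.eq_zero_or_pos k with h3 | h3
        · exact Or.inr h3
        · left
          have h4 := (h.range (j - 1) 1 (by omega) h3).1
          have h5 := h.cls (j - 1) 1 (by omega) h3
          have h6 : ¬ lam < F (j - 1) 1 := by
            rw [h5]
            simp only [one_ne_zero, if_false]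
            omega
          omega
      rcases h3 with h3 | h3
      · omega
      · have hi0 : i = 0 := by omega
        subst hi0
        rw [hnew0]
        omega
  · intro j i j' i' hj hi hj' hi' he
    by_cases hjn : j < n <;> by_cases hjn' : j' < n
    · by_cases hh : lam < F j i <;> by_cases hh' : lam < F j' i'
      · rw [hhigh j i hjn hi hh, hhigh j' i' hjn' hi' hh'] at he
        exact h.vinj j i j' i' hjn hi hjn' hi' (by omega)
      · rw [hhigh j i hjn hi hh, hlow j' i' hjn' hi' hh'] at he
        omega
      · rw [hlow j i hjn hi hh, hhigh j' i' hjn' hi' hh'] at he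
        omega
      · rw [hlow j i hjn hi hh, hlow j' i' hjn' hi' hh'] at he
        exact h.vinj j i j' i' hjn hi hjn' hi' (by omega)
    · have : j' = n := by omega
      subst this
      have h1 := hsz j i hjn hi
      have h2 := hszN i' hi'
      omega
    · have : j = n := by omega
      subst this
      have h1 := hsz j' i' hjn' hi'
      have h2 := hszN i hi
      omega
    · have h1 : j = n := by omega
      have h2 : j' = n := by omega
      subst h1
      subst h2
      refine ⟨rfl, ?_⟩
      rcases Nat.eq_zero_or_pos i with h0 | h0 <;> rcases Nat.eq_zero_or_pos i' with h0' | h0'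
      · omega
      · rw [h0, hnew0, hnew i' h0'] at he
        have := hs i' h0' hi'
        omega
      · rw [h0', hnew0, hnew i h0] at he
        have := hs i h0 hi
        omega
      · rw [hnew i h0, hnew i' h0'] at he
        exact hsi i i' h0 hi h0' hi' (by omega)
  · intro j i j' i' hj h1 hi hj' h1' hi' he
    by_cases hjn : j < n <;> by_cases hjn' : j' < n
    · have e1 := hstar j i hjn h1 hi
      have e2 := hstar j' i' hjn' h1' hi'
      exact h.star j i j' i' hjn h1 hi hjn' h1' hi' (by omega)
    · have : j' = n := by omega
      subst this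
      have e1 := hstar j i hjn h1 hi
      have e2 := hstarN i' h1' hi'
      have e3 := hpos j i hjn h1 hi
      have e4 := hs i' h1' hi'
      omega
    · have : j = n := by omega
      subst this
      have e1 := hstar j' i' hjn' h1' hi'
      have e2 := hstarN i h1 hi
      have e3 := hpos j' i' hjn' h1' hi'
      have e4 := hs i h1 hi
      omega
    · have h2 : j = n := by omega
      have h3 : j' = n := by omega
      subst h2
      subst h3
      have e1 := hstarN i h1 hi
      have e2 := hstarN i' h1' hi'
      exact ⟨rfl, hsi i i' h1 hi h1' hi' (by omega)⟩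
  · intro j i j' i' hj hi hj' hi' he
    by_cases hjn : j + 1 < n <;> by_cases hjn' : j' + 1 < n
    · have e1 := hrung j i hjn hi
      have e2 := hrung j' i' hjn' hi'
      exact h.rung j i j' i' hjn hi hjn' hi' (by omega)
    · have hj2 : j' + 1 = n := by omega
      have e1 := hrung j i hjn hi
      have e3 := hpos2 j i hjn hi
      rcases Nat.eq_zero_or_pos i' with h0' | h0'
      · subst h0'
        have e2 := hrung0 j' hj2
        omega
      · have e2 := hrungN j' i' hj2 h0' hi'
        have e4 := hd i' h0' hi'
        omega
    · have hj2 : j + 1 = n := by omega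
      have e1 := hrung j' i' hjn' hi'
      have e3 := hpos2 j' i' hjn' hi'
      rcases Nat.eq_zero_or_pos i with h0 | h0
      · subst h0
        have e2 := hrung0 j hj2
        omega
      · have e2 := hrungN j i hj2 h0 hi
        have e4 := hd i h0 hi
        omega
    · have hj1 : j + 1 = n := by omega
      have hj2 : j' + 1 = n := by omega
      refine ⟨by omega, ?_⟩
      rcases Nat.eq_zero_or_pos i with h0 | h0 <;> rcases Nat.eq_zero_or_pos i' with h0' | h0'
      · omega
      · subst h0
        have e1 := hrung0 j hj1
        have e2 := hrungN j' i' hj2 h0' hi'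
        have e3 := hdt i' h0' hi'
        omega
      · subst h0'
        have e1 := hrung0 j' hj2
        have e2 := hrungN j i hj1 h0 hi
        have e3 := hdt i h0 hi
        omega
      · have e1 := hrungN j i hj1 h0 hi
        have e2 := hrungN j' i' hj2 h0' hi'
        exact hdi i i' h0 hi h0' hi' (by omega)
  · intro j i j' i' hj h1 hi hj' hi' he
    by_cases hjn : j < n <;> by_cases hjn' : j' + 1 < n
    · have e1 := hstar j i hjn h1 hi
      have e2 := hrung j' i' hjn' hi'
      exact h.mixed j i j' i' hjn h1 hi hjn' hi' (by omega)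
    · have hj2 : j' + 1 = n := by omega
      have e1 := hstar j i hjn h1 hi
      have e3 := hpos j i hjn h1 hi
      rcases Nat.eq_zero_or_pos i' with h0' | h0'
      · subst h0'
        have e2 := hrung0 j' hj2
        omega
      · have e2 := hrungN j' i' hj2 h0' hi'
        have e4 := hd i' h0' hi'
        omega
    · have hj2 : j = n := by omega
      have e1 := hrung j' i' hjn' hi'
      have e3 := hpos2 j' i' hjn' hi'
      have e2 := hstarN i h1 hi
      have e4 := hs i h1 hi
      rw [hj2] at he
      omega
    · have hj1 : j = n := by omega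
      have hj2 : j' + 1 = n := by omega
      have e1 := hstarN i h1 hi
      rw [hj1] at he
      rcases Nat.eq_zero_or_pos i' with h0' | h0'
      · subst h0'
        have e2 := hrung0 j' hj2
        have e3 := hst i h1 hi
        omega
      · have e2 := hrungN j' i' hj2 h0' hi'
        have e3 := hsd i i' h1 hi h0' hi'
        omega
  · intro j i hj hi
    by_cases hjn : j < n
    · have c1 := h.cls j i hjn hi
      by_cases hh : lam < F j i
      · rw [hhigh j i hjn hi hh]
        rw [c1] at hh
        constructor
        · intro h9
          omega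
        · intro h9
          omega
      · rw [hlow j i hjn hi hh]
        have hh2 := hh
        rw [c1] at hh2
        constructor
        · intro h9
          omega
        · intro h9
          omega
    · have : j = n := by omega
      subst this
      rcases Nat.eq_zero_or_pos i with h0 | h0
      · subst h0
        rw [hnew0]
        simp only [if_true]
        omega
      · have hi0 : i ≠ 0 := by omega
        rw [hnew i h0, if_neg hi0]
        have := hs i h0 hi
        omega
  · simp only [Nat.add_sub_cancel]
    rw [hnew0]
    ring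
  · intro i h1 hi
    simp only [Nat.add_sub_cancel]
    rw [hnew i h1]

end Pool.Agent.Q169.GR
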