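import Pool.Agent.Q169.GR.Core

/-!
# Graceful labelings of stacked books: two layers
-/

set_option autoImplicit false
set_option linter.unusedSimpArgs false

namespace Pool.Agent.Q169.GR

/-- Skolem sequences: `u i`, `u i + w i` are the numbers `1, ..., 2k` and the differences `w i` are `1, ..., k`. -/
structure Skolem (k : ℤ) (u w : ℤ → ℤ) : Prop where
  wr : ∀ i, 0 ≤ i → i < k → 1 ≤ w i ∧ w i ≤ k
  ur : ∀ i, 0 ≤ i → i < k → 1 ≤ u i ∧ u i + w i ≤ 2 * k
  winj : ∀ i j, 0 ≤ i → i < k → 0 ≤ j → j < k → w i = w j → i = j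
  uinj : ∀ i j, 0 ≤ i → i < k → 0 ≤ j → j < k → u i = u j → i = j
  uwinj : ∀ i j, 0 ≤ i → i < k → 0 ≤ j → j < k → u i + w i = u j + w j → i = j
  nuw : ∀ i j, 0 ≤ i → i < k → 0 ≤ j → j < k → u i ≠ u j + w j

/-- `k = 4s + 1` -/
def uS (s a : ℤ) : ℤ :=
  if a < 2 * s then 4 * s + 2 + a else if a < 3 * s then a - 2 * s + 1 else if a < 4 * s - 2 then a - 2 * s + 3
  else if a = 4 * s - 2 then s + 1 else if a = 4 * s - 1 then 2 * s + 1 else 2 * s + 2

/-- `k = 4s + 1` -/
def wS (s a : ℤ) : ℤ :=
  if a < 2 * s then 4 * s - 2 * a else if a < 3 * s then 8 * s - 2 * a - 1 else if a < 4 * s - 2 then 8 * s - 2 * a - 3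
  else if a = 4 * s - 2 then 1 else if a = 4 * s - 1 then 4 * s + 1 else 2 * s - 1

/-- `k = 5` -/
def u5 (a : ℤ) : ℤ := if a = 0 then 1 else if a = 1 then 3 else if a = 2 then 4 else if a = 3 then 5 else 7

/-- `k = 5` -/
def w5 (a : ℤ) : ℤ := if a = 0 then 1 else if a = 1 then 3 else if a = 2 then 4 else if a = 3 then 5 else 2

theorem skolemS (s : ℤ) (hs : 2 ≤ s) : Skolem (4 * s + 1) (uS s) (wS s) := by
  refine ⟨?_, ?_, ?_, ?_, ?_, ?_⟩
  · intro i h1 h2
    simp only [wS]
    split_ifs <;> omega
  · intro i h1 h2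
    simp only [uS, wS]
    split_ifs <;> omega
  · intro i j h1 h2 h3 h4 he
    simp only [wS] at he
    split_ifs at he <;> omega
  · intro i j h1 h2 h3 h4 he
    simp only [uS] at he
    split_ifs at he <;> omega
  · intro i j h1 h2 h3 h4 he
    simp only [uS, wS] at he
    split_ifs at he <;> omega
  · intro i j h1 h2 h3 h4 he
    simp only [uS, wS] at he
    split_ifs at he <;> omega

theorem skolem5 : Skolem 5 u5 w5 := by
  refine ⟨?_, ?_, ?_, ?_, ?_, ?_⟩
  · intro i h1 h2
    simp only [w5]
    split_ifs <;> omega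
  · intro i h1 h2
    simp only [u5, w5]
    split_ifs <;> omega
  · intro i j h1 h2 h3 h4 he
    simp only [w5] at he
    split_ifs at he <;> omega
  · intro i j h1 h2 h3 h4 he
    simp only [u5] at he
    split_ifs at he <;> omega
  · intro i j h1 h2 h3 h4 he
    simp only [u5, w5] at he
    split_ifs at he <;> omega
  · intro i j h1 h2 h3 h4 he
    simp only [u5, w5] at he
    split_ifs at he <;> omega

theorem exists_skolem (s : ℕ) (hs : 1 ≤ s) : ∃ u w, Skolem (4 * s + 1) u w := by
  rcases Nat.lt_or_ge 1 s with h | h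
  · exact ⟨uS s, wS s, skolemS s (by omega)⟩
  · obtain rfl : s = 1 := by omega
    exact ⟨u5, w5, skolem5⟩

/-- the labeling of two layers -/
def two (k : ℤ) (u w : ℤ → ℤ) (j i : ℕ) : ℤ :=
  if j = 0 then (if i = 0 then 3 * k + 1 else k - w (i - 1)) else (if i = 0 then k else k + u (i - 1))

theorem two_lab (k : ℕ) (u w : ℤ → ℤ) (T : Skolem k u w) : Lab k 2 (two k u w) (3 * k + 1) := by
  refine { range := ?_, vinj := ?_, star := ?_, rung := ?_, mixed := ?_ }
  · intro j i hj hi
    rcases Nat.eq_zero_or_pos i with h0 | h0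
    · subst h0
      interval_cases j <;> simp only [two, if_true, one_ne_zero, if_false] <;> omega
    · have hi0 : i ≠ 0 := by omega
      have a1 := T.wr (i - 1) (by omega) (by omega)
      have a3 := T.ur (i - 1) (by omega) (by omega)
      interval_cases j <;> simp only [two, if_true, if_neg hi0, one_ne_zero, if_false] <;> omega
  · intro j i j' i' hj hi hj' hi' he
    rcases Nat.eq_zero_or_pos i with h0 | h0 <;> rcases Nat.eq_zero_or_pos i' with h0' | h0'
    · subst h0
      subst h0'
      interval_cases j <;> interval_cases j' <;> simp only [two, if_true, one_ne_zero, if_false] at he <;> omega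
    · have hi0' : i' ≠ 0 := by omega
      have a1 := T.wr (i' - 1) (by omega) (by omega)
      have a3 := T.ur (i' - 1) (by omega) (by omega)
      subst h0
      interval_cases j <;> interval_cases j' <;> simp only [two, if_true, if_neg hi0', one_ne_zero,
        if_false] at he <;> omega
    · have hi0 : i ≠ 0 := by omega
      have a1 := T.wr (i - 1) (by omega) (by omega)
      have a3 := T.ur (i - 1) (by omega) (by omega)
      subst h0'
      interval_cases j <;> interval_cases j' <;> simp only [two, if_true, if_neg hi0, one_ne_zero,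
        if_false] at he <;> omega
    · have hi0 : i ≠ 0 := by omega
      have hi0' : i' ≠ 0 := by omega
      have a1 := T.wr (i - 1) (by omega) (by omega)
      have a3 := T.ur (i - 1) (by omega) (by omega)
      have b1 := T.wr (i' - 1) (by omega) (by omega)
      have b3 := T.ur (i' - 1) (by omega) (by omega)
      have c1 := T.winj (i - 1) (i' - 1) (by omega) (by omega) (by omega) (by omega)
      have c3 := T.uinj (i - 1) (i' - 1) (by omega) (by omega) (by omega) (by omega)
      interval_cases j <;> interval_cases j' <;> simp only [two, if_true, if_neg hi0, if_neg hi0', one_ne_zero,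
        if_false] at he <;> omega
  · intro j i j' i' hj h1 hi hj' h1' hi' he
    have hi0 : i ≠ 0 := by omega
    have hi0' : i' ≠ 0 := by omega
    have a1 := T.wr (i - 1) (by omega) (by omega)
    have a3 := T.ur (i - 1) (by omega) (by omega)
    have b1 := T.wr (i' - 1) (by omega) (by omega)
    have b3 := T.ur (i' - 1) (by omega) (by omega)
    have c1 := T.winj (i - 1) (i' - 1) (by omega) (by omega) (by omega) (by omega)
    have c3 := T.uinj (i - 1) (i' - 1) (by omega) (by omega) (by omega) (by omega)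
    interval_cases j <;> interval_cases j' <;> simp only [two, if_true, if_neg hi0, if_neg hi0', one_ne_zero,
        if_false] at he <;> omega
  · intro j i j' i' hj hi hj' hi' he
    obtain rfl : j = 0 := by omega
    obtain rfl : j' = 0 := by omega
    rcases Nat.eq_zero_or_pos i with h0 | h0 <;> rcases Nat.eq_zero_or_pos i' with h0' | h0'
    · omega
    · have hi0' : i' ≠ 0 := by omega
      have b1 := T.wr (i' - 1) (by omega) (by omega)
      have b3 := T.ur (i' - 1) (by omega) (by omega)
      subst h0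
      simp only [two, if_true, if_neg hi0', zero_add, one_ne_zero, if_false] at he
      omega
    · have hi0 : i ≠ 0 := by omega
      have b1 := T.wr (i - 1) (by omega) (by omega)
      have b3 := T.ur (i - 1) (by omega) (by omega)
      subst h0'
      simp only [two, if_true, if_neg hi0, zero_add, one_ne_zero, if_false] at he
      omega
    · have hi0 : i ≠ 0 := by omega
      have hi0' : i' ≠ 0 := by omega
      have a1 := T.wr (i - 1) (by omega) (by omega)
      have a3 := T.ur (i - 1) (by omega) (by omega)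
      have b1 := T.wr (i' - 1) (by omega) (by omega)
      have b3 := T.ur (i' - 1) (by omega) (by omega)
      have c1 := T.uwinj (i - 1) (i' - 1) (by omega) (by omega) (by omega) (by omega)
      simp only [two, if_true, if_neg hi0, if_neg hi0', zero_add, one_ne_zero, if_false] at he
      omega
  · intro j i j' i' hj h1 hi hj' hi' he
    obtain rfl : j' = 0 := by omega
    have hi0 : i ≠ 0 := by omega
    have a1 := T.wr (i - 1) (by omega) (by omega)
    have a3 := T.ur (i - 1) (by omega) (by omega)
    rcases Nat.eq_zero_or_pos i' with h0' | h0'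
    · subst h0'
      interval_cases j <;> simp only [two, if_true, if_neg hi0, zero_add, one_ne_zero, if_false] at he <;> omega
    · have hi0' : i' ≠ 0 := by omega
      have b1 := T.wr (i' - 1) (by omega) (by omega)
      have b3 := T.ur (i' - 1) (by omega) (by omega)
      have c1 := T.nuw (i - 1) (i' - 1) (by omega) (by omega) (by omega) (by omega)
      interval_cases j <;> simp only [two, if_true, if_neg hi0, if_neg hi0', zero_add, one_ne_zero,
        if_false] at he <;> omega

theorem graceful_two (s : ℕ) (hs : 1 ≤ s) : Graceful (book (4 * s + 1) 2) := by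
  obtain ⟨u, w, T⟩ := exists_skolem s hs
  have T' : Skolem ((4 * s + 1 : ℕ) : ℤ) u w := by
    push_cast
    exact T
  refine (two_lab (4 * s + 1) u w T').graceful ?_
  omega

/-- Rosa's parity argument for books. -/
theorem not_graceful_two (k : ℕ) (hk : k % 4 = 3) : ¬ Graceful (book k 2) := by
  rintro ⟨f, hinj, hle, hE⟩
  rw [ncard_book] at hle
  -- the label of an edge
  let L : Ed k 2 → ℕ := fun x => match x with
    | Sum.inl (j, i) => ((f (0, j) : ℤ) - f (i.succ, j)).natAbs
    | Sum.inr (j, i) => ((f (i, 0) : ℤ) - f (i, 1)).natAbs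
  have hL : ∀ x : Ed k 2, ∃ a b, edge k 2 x = s(a, b) ∧ L x = ((f a : ℤ) - f b).natAbs := by
    rintro (⟨j, i⟩ | ⟨j, i⟩)
    · exact ⟨_, _, rfl, rfl⟩
    · refine ⟨(i, 0), (i, 1), ?_, rfl⟩
      have hj : (j : ℕ) = 0 := by omega
      simp only [edge, Sym2.eq_iff, Prod.mk.injEq, Fin.ext_iff, hj]
      left
      simp
  have hLinj : Function.Injective L := by
    intro x y hxy
    obtain ⟨a, b, hab, h1⟩ := hL x
    obtain ⟨c, d, hcd, h2⟩ := hL y
    have hx : (book k 2).Adj a b := by
      have := edge_mem k 2 x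
      rw [hab] at this
      exact this
    have hy : (book k 2).Adj c d := by
      have := edge_mem k 2 y
      rw [hcd] at this
      exact this
    have h3 := hE a b c d hx hy (by
      rw [Int.abs_eq_natAbs, Int.abs_eq_natAbs, ← h1, ← h2, hxy])
    rw [← hab, ← hcd] at h3
    exact edge_injective k 2 h3
  have hLmem : ∀ x, L x ∈ Finset.Icc 1 (3 * k + 1) := by
    intro x
    obtain ⟨a, b, hab, h1⟩ := hL x
    have hx : (book k 2).Adj a b := by
      have := edge_mem k 2 x
      rw [hab] at this
      exact this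
    have h2 : f a ≠ f b := fun h => hx.ne (hinj h)
    have h3 := hle a
    have h4 := hle b
    rw [Finset.mem_Icc, h1]
    omega
  have himg : Finset.univ.image L = Finset.Icc 1 (3 * k + 1) := by
    apply Finset.eq_of_subset_of_card_le
    · intro y hy
      obtain ⟨x, -, rfl⟩ := Finset.mem_image.1 hy
      exact hLmem x
    · rw [Finset.card_image_of_injective _ hLinj, Nat.card_Icc, Finset.card_univ]
      simp [Fintype.card_sum, Fintype.card_prod]
      omega
  have hsum : ∑ x, L x = ∑ i ∈ Finset.Icc 1 (3 * k + 1), i := by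
    rw [← himg, Finset.sum_image]
    intro a _ b _ h
    exact hLinj h
  -- parity of the sum of the labels
  have hcast : ∀ a b : ℕ, (((((a : ℤ) - b).natAbs : ℕ)) : ZMod 2) = a + b := by
    intro a b
    have h1 : ((((a : ℤ) - b).natAbs : ℕ) : ZMod 2) = ((((a : ℤ) - b).natAbs : ℤ) : ZMod 2) := by simp
    rw [h1]
    rcases Int.natAbs_eq ((a : ℤ) - b) with h | h
    · rw [← h]
      push_cast
      exact CharTwo.sub_eq_add _ _
    · have h' : ((((a : ℤ) - b).natAbs : ℕ) : ℤ) = -((a : ℤ) - b) := by omega
      rw [h']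
      push_cast
      rw [CharTwo.neg_eq, CharTwo.sub_eq_add]
  have hk0 : ((k : ℕ) : ZMod 2) = 1 := by
    have : ((k : ℕ) : ZMod 2) = ((k % 2 : ℕ) : ZMod 2) := by simp
    rw [this, show k % 2 = 1 from by omega]
    rfl
  have heven : ((∑ x, L x : ℕ) : ZMod 2) = 0 := by
    rw [Fintype.sum_sum_type, Fintype.sum_prod_type, Fintype.sum_prod_type]
    push_cast
    have e1 : ∀ j : Fin 2, ∀ i : Fin k, ((L (Sum.inl (j, i)) : ℕ) : ZMod 2) = f (0, j) + f (i.succ, j) := fun j i =>
      hcast _ _
    have e2 : ∀ j : Fin (2 - 1), ∀ i : Fin (k + 1), ((L (Sum.inr (j, i)) : ℕ) : ZMod 2) = f (i, 0) + f (i, 1) :=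
      fun j i => hcast _ _
    simp only [e1, e2]
    have e3 : ∀ g : Fin (2 - 1) → ZMod 2, ∑ j : Fin (2 - 1), g j = g ⟨0, by norm_num⟩ := by
      intro g
      exact Fintype.sum_eq_single _ (fun x hx => absurd (Fin.ext (by omega)) hx)
    rw [e3, Fin.sum_univ_two, Fin.sum_univ_succ (f := fun i => ((f (i, 0) : ZMod 2) + (f (i, 1) : ZMod 2)))]
    simp only [Finset.sum_add_distrib, Finset.sum_const, Finset.card_univ, Fintype.card_fin, nsmul_eq_mul, hk0, one_mul]
    have h2 : (2 : ZMod 2) = 0 := rfl
    linear_combination ((f (0, 0) : ZMod 2) + (f (0, 1) : ZMod 2) + (∑ i : Fin k, (f (i.succ, 0) : ZMod 2)) +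
      (∑ i : Fin k, (f (i.succ, 1) : ZMod 2))) * h2
  rw [hsum] at heven
  have h3 : (∑ i ∈ Finset.Icc 1 (3 * k + 1), i) = ∑ i ∈ Finset.range (3 * k + 2), i := by
    rw [Finset.range_eq_Ico, Finset.sum_eq_sum_Ico_succ_bot (by omega)]
    simp only [zero_add]
    rfl
  have h4 := Finset.sum_range_id_mul_two (3 * k + 2)
  rw [← h3] at h4
  rw [ZMod.natCast_eq_zero_iff] at heven
  obtain ⟨c, hc⟩ := heven
  obtain ⟨m, rfl⟩ : ∃ m, k = 4 * m + 3 := ⟨k / 4, by omega⟩
  rw [hc] at h4
  have h5 : (3 * (4 * m + 3) + 2) * (3 * (4 * m + 3) + 2 - 1) = 4 * (36 * m * m + 63 * m + 27) + 2 := by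
    have : 3 * (4 * m + 3) + 2 - 1 = 12 * m + 10 := by omega
    rw [this]
    ring
  rw [h5] at h4
  omega

end Pool.Agent.Q169.GR
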